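import Mathlib
import Pool.Agent.R465.CI.Cons

set_option autoImplicit false

/-!
# Rational points on the curves of thin families of complete intersections

The curves are given in `P ^ n`, `n ≥ 2`, by `n - 1` equations `G_j(x) + ∑ a, c_(j,a) x ^ (μ j a) = 0` of degrees `d_j` with
`∑ d_j ≥ n + 2` (the smooth ones have genus at least two; `n = 2`: plane curves of degree at least four). Only the integers
`c_(j,a)` are varied, in `[-H, H]`; the centre `G` is arbitrary. The monomials `x ^ (μ j a)` may be all monomials of degree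
`d_j`, or any set which contains those in two variables only.
-/

namespace Pool.Agent.Results.MP_10e784_ag.CompleteIntersectionsInEveryBox

/-- the integers `x_0, …, x_n` have no common divisor other than `±1` -/
def Primitive {n : ℕ} (x : Fin (n + 1) → ℤ) : Prop := ∀ q : ℤ, (∀ l, q ∣ x l) → IsUnit q

/-- the monomials with the exponents `μ a` include all `x_i ^ k * x_l ^ (d - k)`, `i ≠ l`, `k ≤ d` -/
def ContainsEdges {n : ℕ} (d : ℕ) {ι : Type} (μ : ι → Fin (n + 1) → ℕ) : Prop :=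
  ∀ i l : Fin (n + 1), i ≠ l → ∀ k ≤ d, ∃ a, μ a = fun s => if s = i then k else if s = l then d - k else 0

/-- `x` is a common zero of the `G j + ∑ a, c j a * x ^ (μ j a)` -/
def IsZero {n r : ℕ} {ι : Fin r → Type} [∀ j, Fintype (ι j)] (μ : ∀ j, ι j → Fin (n + 1) → ℕ)
    (G : Fin r → (Fin (n + 1) → ℤ) → ℤ) (c : ∀ j, ι j → ℤ) (x : Fin (n + 1) → ℤ) : Prop :=
  ∀ j, G j x + ∑ a, c j a * ∏ l, x l ^ μ j a l = 0

/-- the coefficient vectors of absolute value at most `H` -/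
def Box {r : ℕ} (ι : Fin r → Type) (H : ℝ) : Set (∀ j, ι j → ℤ) := {c | ∀ j a, |(c j a : ℝ)| ≤ H}

/-- the pairs of a system and a rational point of height at most `B` on it (each point counts twice, as `±x`) -/
def Points {n r : ℕ} {ι : Fin r → Type} [∀ j, Fintype (ι j)] (μ : ∀ j, ι j → Fin (n + 1) → ℕ)
    (G : Fin r → (Fin (n + 1) → ℤ) → ℤ) (H B : ℝ) : Set ((∀ j, ι j → ℤ) × (Fin (n + 1) → ℤ)) :=
  {p | p.1 ∈ Box ι H ∧ Primitive p.2 ∧ (∀ l, |(p.2 l : ℝ)| ≤ B) ∧ IsZero μ G p.1 p.2}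

/-- the systems with a rational point of height at most `B` -/
def WithPoint {n r : ℕ} {ι : Fin r → Type} [∀ j, Fintype (ι j)] (μ : ∀ j, ι j → Fin (n + 1) → ℕ)
    (G : Fin r → (Fin (n + 1) → ℤ) → ℤ) (H B : ℝ) : Set (∀ j, ι j → ℤ) :=
  {c | c ∈ Box ι H ∧ ∃ x : Fin (n + 1) → ℤ, Primitive x ∧ (∀ l, |(x l : ℝ)| ≤ B) ∧ IsZero μ G c x}

/-- Let `n ≥ 2`, degrees `d_1, …, d_(n-1)` with sum `D ≥ n + 2`, and monomials as above, `M` in number. For the
`(2 ⌊H⌋ + 1) ^ M` systems with coefficients in the box of side `H` around an ARBITRARY centre `G`: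
(1) the number of pairs of a system and a rational point of height at most `B` on it is at most
`C B ^ ε (H ^ (M - (n - 1)) B ^ θ + H ^ (M - D - (n - 1)) B ^ (n + 1))`, `θ = max(0, (2 n - D) / n)`;
(2) all but `C H ^ (M - η)` of the systems have no rational point of height at most `H ^ ((D + n - 1) / (n + 1) - δ)`.
The constants do not depend on `G`. -/
theorem result (n : ℕ) (hn : 2 ≤ n) (d : Fin (n - 1) → ℕ) (hd : n + 2 ≤ ∑ j, d j)
    (ι : Fin (n - 1) → Type) [∀ j, Fintype (ι j)] (μ : ∀ j, ι j → Fin (n + 1) → ℕ)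
    (hμ : ∀ j, ContainsEdges (d j) (μ j)) :
    (∀ ε : ℝ, 0 < ε → ∃ C : ℝ, 0 < C ∧ ∀ (G : Fin (n - 1) → (Fin (n + 1) → ℤ) → ℤ) (H B : ℝ),
      1 ≤ H → 1 ≤ B → (Points μ G H B).Finite ∧ ((Points μ G H B).ncard : ℝ) ≤ C * B ^ ε *
        (H ^ ((∑ j, Fintype.card (ι j)) - (n - 1)) *
            B ^ (max 0 ((2 * (n : ℝ) - (∑ j, d j : ℕ)) / n)) +
          H ^ ((∑ j, Fintype.card (ι j)) - ((∑ j, d j) + (n - 1))) * B ^ (n + 1))) ∧
    ∀ δ : ℝ, 0 < δ → ∃ η : ℝ, 0 < η ∧ ∃ C : ℝ, 0 < C ∧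
      ∀ (G : Fin (n - 1) → (Fin (n + 1) → ℤ) → ℤ) (H : ℝ), 1 ≤ H →
        (WithPoint μ G H (H ^ (((∑ j, d j : ℕ) + ((n : ℝ) - 1)) / (n + 1) - δ))).Finite ∧
        ((WithPoint μ G H (H ^ (((∑ j, d j : ℕ) + ((n : ℝ) - 1)) / (n + 1) - δ))).ncard : ℝ) ≤
          C * H ^ (((∑ j, Fintype.card (ι j) : ℕ) : ℝ) - η) := by
  obtain ⟨D, hD⟩ : ∃ D : ℕ, D = ∑ j, d j := ⟨_, rfl⟩
  obtain ⟨M, hM⟩ : ∃ M : ℕ, M = ∑ j, Fintype.card (ι j) := ⟨_, rfl⟩
  rw [← hD, ← hM]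
  rw [← hD] at hd
  constructor
  · intro ε hε
    obtain ⟨C, hC, h⟩ := Pool.Agent.R465.CI.main (by omega : 1 ≤ n) d ι μ hμ D M hD hM (by omega) hε
    refine ⟨C, hC, fun G H B hH hB => ?_⟩
    refine Pool.Agent.R465.CI.finite_of_card _ _ fun T hT => ?_
    refine h G H B hH hB T fun p hp => ?_
    obtain ⟨h1, h2, h3, h4⟩ := hT hp
    exact ⟨h2, h3, fun j => ⟨h1 j, h4 j⟩⟩
  · intro δ hδ
    obtain ⟨η, hη, C, hC, h⟩ := Pool.Agent.R465.CI.almost hn rfl d ι μ hμ D M hD hM hd hδ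
    refine ⟨η, hη, C, hC, fun G H hH => ?_⟩
    refine Pool.Agent.R465.CI.finite_of_card _ _ fun T hT => ?_
    refine h G H hH T fun c hc => ?_
    obtain ⟨h1, x, h2, h3, h4⟩ := hT hc
    exact ⟨h1, x, h2, h3, h4⟩

end Pool.Agent.Results.MP_10e784_ag.CompleteIntersectionsInEveryBox
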