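import Pool.Agent.Results.MP_10e784_ag.SuperellipticFewClasses
import Pool.Agent.R559.NP.Near4

/-!
# Superelliptic curves near a given point

Let `φ` be any map from the polynomials over `ℚ` to a metric space `X` which takes the same value on affinely equivalent
polynomials (for example a real or `l`-adic invariant, the position of the class in the moduli space).  For all `ξ ∈ X`
outside a set of Hausdorff dimension zero, all `d`, `A` and all `τ > 0` there are `N`, `n₀` and `δ > 0` such that for every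
`κ` all polynomials `f` of degree `d` and height at most `Y` with `dist (φ f) ξ ≤ κ Y ^ (-τ)`, but those in finitely many
classes, have the following property: at most `N` rational numbers of height at most `Y ^ A` are first coordinates of
rational points `(x, y)`, `y ≠ 0`, on ALL the curves `c y ^ n = f(x)`, `n ≥ n₀`, `c` composed of primes whose product is at
most `Y ^ δ`.
-/

set_option autoImplicit false

open Filter Topology

namespace Pool.Agent.Results.MP_10e784_ag.CurvesNearAPoint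

open SuperellipticFewClasses (HeightAtMost AffineEquivalent OnCurves)

lemma ae_refl (f : Polynomial ℚ) : AffineEquivalent f f := ⟨1, 0, one_ne_zero, by simp⟩

lemma ae_symm {f g : Polynomial ℚ} (h : AffineEquivalent f g) : AffineEquivalent g f := by
  obtain ⟨a, b, ha, rfl⟩ := h
  refine ⟨a⁻¹, -(a⁻¹ * b), inv_ne_zero ha, ?_⟩
  rw [Polynomial.comp_assoc]
  have h1 : (Polynomial.C a * Polynomial.X + Polynomial.C b).comp
      (Polynomial.C a⁻¹ * Polynomial.X + Polynomial.C (-(a⁻¹ * b))) = Polynomial.X := by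
    simp only [Polynomial.add_comp, Polynomial.mul_comp, Polynomial.C_comp, Polynomial.X_comp]
    rw [mul_add, ← mul_assoc, ← Polynomial.C_mul, ← Polynomial.C_mul, mul_inv_cancel₀ ha, Polynomial.C_1,
      one_mul, add_assoc, ← Polynomial.C_add]
    have h2 : a * -(a⁻¹ * b) + b = 0 := by
      field_simp
      ring
    rw [h2, Polynomial.C_0, add_zero]
  rw [h1, Polynomial.comp_X]

lemma ae_trans {f g h : Polynomial ℚ} (h1 : AffineEquivalent f g) (h2 : AffineEquivalent g h) :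
    AffineEquivalent f h := by
  obtain ⟨a, b, ha, rfl⟩ := h1
  obtain ⟨a', b', ha', rfl⟩ := h2
  refine ⟨a * a', a * b' + b, mul_ne_zero ha ha', ?_⟩
  rw [Polynomial.comp_assoc]
  congr 1
  simp only [Polynomial.add_comp, Polynomial.mul_comp, Polynomial.C_comp, Polynomial.X_comp, Polynomial.C_mul,
    Polynomial.C_add]
  ring

/-- classes under affine substitutions -/
def st : Setoid (Polynomial ℚ) where
  r := AffineEquivalent
  iseqv := ⟨ae_refl, ae_symm, ae_trans⟩

lemma countable_poly : Countable (Polynomial ℚ) := by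
  have : Function.Injective
      (fun p : Polynomial ℚ => (⟨p.natDegree + 1, fun i => p.coeff i⟩ : Σ n : ℕ, (Fin n → ℚ))) := by
    intro p q h
    simp only [Sigma.mk.injEq] at h
    obtain ⟨h2, h3⟩ := h
    have h4 : p.natDegree = q.natDegree := by omega
    ext i
    by_cases hi : i ≤ p.natDegree
    · have h5 : ∀ (m n : ℕ) (f : Fin m → ℚ) (g : Fin n → ℚ), m = n → f ≍ g → ∀ (k : ℕ) (hk : k < m)
          (hk' : k < n), f ⟨k, hk⟩ = g ⟨k, hk'⟩ := by
        rintro m n f g rfl h k hk hk'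
        rw [eq_of_heq h]
      exact h5 _ _ _ _ h2 h3 i (by omega) (by omega)
    · rw [Polynomial.coeff_eq_zero_of_natDegree_lt (by omega),
        Polynomial.coeff_eq_zero_of_natDegree_lt (by omega)]
  exact this.countable

/-- `f` has degree `d`, height at most `Y`, and more than `N` points of height at most `Y ^ A` -/
def Many (d A N n₀ : ℕ) (δ : ℝ) (Y : ℕ) (f : Polynomial ℚ) : Prop :=
  f.natDegree = d ∧ HeightAtMost f Y ∧
    ∃ P : Finset ℚ, N < P.card ∧ ∀ x ∈ P, |x.num| ≤ (Y : ℤ) ^ A ∧ (x.den : ℤ) ≤ (Y : ℤ) ^ A ∧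
      OnCurves f n₀ ((Y : ℝ) ^ δ) x

lemma many_mono {d A N n₀ : ℕ} {δ : ℝ} (hδ : 0 < δ) {Y Y' : ℕ} (h : Y ≤ Y') {f : Polynomial ℚ}
    (hf : Many d A N n₀ δ Y f) : Many d A N n₀ δ Y' f := by
  obtain ⟨h1, ⟨q, h2, h3, h4⟩, P, h5, h6⟩ := hf
  have hY : (Y : ℤ) ≤ (Y' : ℤ) := by exact_mod_cast h
  have hY2 : (Y : ℤ) ^ A ≤ (Y' : ℤ) ^ A := pow_le_pow_left₀ (by positivity) hY A
  refine ⟨h1, ⟨q, h2, h3.trans hY, fun i => ?_⟩, P, h5, fun x hx => ?_⟩
  · obtain ⟨a, h7, h8⟩ := h4 i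
    exact ⟨a, h7.trans hY, h8⟩
  · obtain ⟨h7, h8, n, c, y, h9, h10, h11, h12, h13⟩ := h6 x hx
    refine ⟨h7.trans hY2, h8.trans hY2, n, c, y, h9, h10, h11.trans ?_, h12, h13⟩
    exact Real.rpow_le_rpow (by positivity) (by exact_mod_cast h) hδ.le

/-- **Theorem.** Let `φ` be a map from the polynomials over `ℚ` to a metric space `X` which takes the same value on affinely
equivalent polynomials.  There is `E ⊆ X` of Hausdorff dimension zero such that for all `ξ ∈ X` outside `E`, all `d ≥ 1`,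
`A ≥ 1` and all `τ > 0` there are `N`, `n₀` and `δ > 0` such that for every `κ` there is a finite set `S` of polynomials
such that every polynomial `f` of degree `d` and height at most `Y` with `dist (φ f) ξ ≤ κ Y ^ (-τ)` which is not affinely
equivalent to a member of `S` has the following property: at most `N` rational numbers `x` of height at most `Y ^ A` are
first coordinates of rational points with `y ≠ 0` on the curves `c y ^ n = f(x)` with `n ≥ n₀`, where `c` runs through the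
nonzero rational numbers composed of primes whose product is at most `Y ^ δ`. -/
theorem result (X : Type) [MetricSpace X] (φ : Polynomial ℚ → X)
    (hφ : ∀ f g, AffineEquivalent f g → φ f = φ g) :
    ∃ E : Set X, dimH E = 0 ∧ ∀ ξ : X, ξ ∉ E → ∀ d A : ℕ, 1 ≤ d → 1 ≤ A → ∀ τ : ℝ, 0 < τ →
      ∃ (N n₀ : ℕ) (δ : ℝ), 0 < δ ∧ ∀ κ : ℝ, ∃ S : Finset (Polynomial ℚ), ∀ (f : Polynomial ℚ) (Y : ℕ), 1 ≤ Y →
        f.natDegree = d → HeightAtMost f Y → dist (φ f) ξ ≤ κ * (Y : ℝ) ^ (-τ) →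
        (∀ g ∈ S, ¬ AffineEquivalent g f) →
        ∀ P : Finset ℚ, (∀ x ∈ P, |x.num| ≤ (Y : ℤ) ^ A ∧ (x.den : ℤ) ≤ (Y : ℤ) ^ A ∧
          OnCurves f n₀ ((Y : ℝ) ^ δ) x) → P.card ≤ N := by
  classical
  have hc : Countable (Quotient st) := by
    have := countable_poly
    infer_instance
  have key : ∀ p : ℕ × ℕ, ∃ E : Set X, dimH E = 0 ∧ ∀ ξ : X, ξ ∉ E → 1 ≤ p.1 → 1 ≤ p.2 → ∀ τ : ℝ, 0 < τ →
      ∃ (N n₀ : ℕ) (δ : ℝ), 0 < δ ∧ ∀ κ : ℝ, ∃ S : Finset (Polynomial ℚ), ∀ (f : Polynomial ℚ) (Y : ℕ), 1 ≤ Y →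
        Many p.1 p.2 N n₀ δ Y f → dist (φ f) ξ ≤ κ * (Y : ℝ) ^ (-τ) → ∃ g ∈ S, AffineEquivalent g f := by
    rintro ⟨d, A⟩
    by_cases hdA : 1 ≤ d ∧ 1 ≤ A
    · have hres := fun j : ℕ => SuperellipticFewClasses.result d A hdA.1 hdA.2 (1 / ((j : ℝ) + 1)) (by positivity)
      choose N n₀ δ C hδ h using hres
      obtain ⟨E, hE, hE'⟩ := Pool.Agent.R559.NP.near_classes st hc φ hφ
        (fun j Y f => Many d A (N j) (n₀ j) (δ j) Y f) (fun j T T' f hT hf => many_mono (hδ j) hT hf)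
        (fun j => ⟨C j, fun T hT S hS hS' => h j T hT S hS hS'⟩)
      refine ⟨E, hE, fun ξ hξ _ _ τ hτ => ?_⟩
      obtain ⟨j, hj⟩ := hE' ξ hξ τ hτ
      refine ⟨N j, n₀ j, δ j, hδ j, fun κ => ?_⟩
      obtain ⟨S, hS⟩ := hj κ
      exact ⟨S, fun f Y hY hf hd => hS f Y hY hf hd⟩
    · exact ⟨∅, by simp, fun ξ _ h1 h2 => absurd ⟨h1, h2⟩ hdA⟩
  choose G hG1 hG2 using key
  refine ⟨⋃ p, G p, ?_, fun ξ hξ d A hd hA τ hτ => ?_⟩
  · rw [dimH_iUnion]
    simp [hG1]
  · obtain ⟨N, n₀, δ, hδ, h⟩ := hG2 (d, A) ξ (fun h => hξ (Set.mem_iUnion.2 ⟨_, h⟩)) hd hA τ hτ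
    refine ⟨N, n₀, δ, hδ, fun κ => ?_⟩
    obtain ⟨S, hS⟩ := h κ
    refine ⟨S, fun f Y hY h1 h2 h3 h4 P hP => ?_⟩
    by_contra hcon
    push Not at hcon
    obtain ⟨g, hg, hgf⟩ := hS f Y hY ⟨h1, h2, P, hcon, hP⟩ h3
    exact h4 g hg hgf

end Pool.Agent.Results.MP_10e784_ag.CurvesNearAPoint
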