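import Pool.Agent.R323.SE.E

/-!
# Rational points on superelliptic curves: all but few classes

Let `d ≥ 1`, `A ≥ 1` and `ε > 0`. For polynomials `f` with rational coefficients, of degree `d` and
of height at most `Y`, consider the curves `c * y ^ n = f x` for all large `n` and all coefficients
`c` which are composed of primes whose product is at most `Y ^ δ`. For all but at most `C * Y ^ ε`
classes of `f` under affine substitutions, at most `N` rational numbers of height at most `Y ^ A`
are `x`-coordinates of rational points with `y ≠ 0` on these curves, where `N`, the bound for `n`,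
`δ` and `C` depend on `d`, `A` and `ε` only.
-/

set_option autoImplicit false

namespace Pool.Agent.Results.MP_10e784_ag.SuperellipticFewClasses

/-- the product of the primes which divide the numerator or the denominator of `c` -/
def primesProduct (c : ℚ) : ℕ := ∏ p ∈ (c.num.natAbs * c.den).primeFactors, p

/-- the coefficients of `f` are fractions with a common denominator `q ≠ 0`, where `q` and all the
numerators are integers of absolute value at most `Y` -/
def HeightAtMost (f : Polynomial ℚ) (Y : ℕ) : Prop :=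
  ∃ q : ℤ, q ≠ 0 ∧ |q| ≤ (Y : ℤ) ∧ ∀ i, ∃ a : ℤ, |a| ≤ (Y : ℤ) ∧ f.coeff i = (a : ℚ) / (q : ℚ)

/-- `g x = f (a * x + b)` for rational numbers `a ≠ 0` and `b` -/
def AffineEquivalent (f g : Polynomial ℚ) : Prop :=
  ∃ a b : ℚ, a ≠ 0 ∧ g = f.comp (Polynomial.C a * Polynomial.X + Polynomial.C b)

/-- `x` is the first coordinate of a rational point `(x, y)` with `y ≠ 0` on one of the curves
`c * y ^ n = f x` with `n ≥ n₀` and with a rational number `c ≠ 0` such that the product of the
primes dividing the numerator or the denominator of `c` is at most `R` -/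
def OnCurves (f : Polynomial ℚ) (n₀ : ℕ) (R : ℝ) (x : ℚ) : Prop :=
  ∃ (n : ℕ) (c y : ℚ), n₀ ≤ n ∧ c ≠ 0 ∧ (primesProduct c : ℝ) ≤ R ∧ y ≠ 0 ∧
    c * y ^ n = f.eval x

/-- For `d ≥ 1`, `A ≥ 1` and `ε > 0` there are `N`, `n₀`, `δ > 0` and `C` such that for all `Y ≥ 1`
there are at most `C * Y ^ ε` pairwise affinely inequivalent polynomials `f` of degree `d` and height
at most `Y` for which more than `N` rational numbers `x` of height at most `Y ^ A` are first
coordinates of rational points with `y ≠ 0` on the curves `c * y ^ n = f x` with `n ≥ n₀`, where `c`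
runs through the nonzero rational numbers composed of primes whose product is at most `Y ^ δ`. -/
theorem result (d A : ℕ) (hd : 1 ≤ d) (hA : 1 ≤ A) (ε : ℝ) (hε : 0 < ε) :
    ∃ (N n₀ : ℕ) (δ C : ℝ), 0 < δ ∧ ∀ Y : ℕ, 1 ≤ Y → ∀ S : Finset (Polynomial ℚ),
      (∀ f ∈ S, f.natDegree = d ∧ HeightAtMost f Y ∧
        ∃ P : Finset ℚ, N < P.card ∧ ∀ x ∈ P, |x.num| ≤ (Y : ℤ) ^ A ∧ (x.den : ℤ) ≤ (Y : ℤ) ^ A ∧
          OnCurves f n₀ ((Y : ℝ) ^ δ) x) →
      (∀ f ∈ S, ∀ g ∈ S, f ≠ g → ¬ AffineEquivalent f g) →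
      (S.card : ℝ) ≤ C * (Y : ℝ) ^ ε := by
  obtain ⟨N, n₀, δ, C, hδ, -, h⟩ := Pool.Agent.R323.SE.full_poly d A hd hA ε hε
  refine ⟨N, n₀, δ, C, hδ, fun Y hY S hS hAff => h Y hY S ?_ hAff⟩
  intro f hf
  obtain ⟨h1, h2, P, hP, hP2⟩ := hS f hf
  refine ⟨h1, h2, P, hP, fun x hx => ?_⟩
  obtain ⟨h3, h4, n, c, y, hn, hc, hcR, hy, hxy⟩ := hP2 x hx
  refine ⟨h3, h4, ?_, (c.num.natAbs * c.den).primeFactors,
    fun p hp => Nat.prime_of_mem_primeFactors hp, hcR, n, hn, fun p hp hpT => ?_⟩
  · rw [← hxy]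
    exact mul_ne_zero hc (pow_ne_zero _ hy)
  · rw [← hxy]
    exact Pool.Agent.R323.SE.full_of_power hp hc hpT

end Pool.Agent.Results.MP_10e784_ag.SuperellipticFewClasses
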