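import Pool.Agent.Results.MP_10e784_ag.TwistsWithTrivialPoints
import Pool.Agent.R482.ST.Mills

/-!
# All curves `d y² = f(x)` with `d` near `α ^ (v_n)` have exactly `2 g + 2` rational points

Let `v_n ≥ 1` and `L_n ≥ 1` be reals such that the sum of `L_n v_n ^ (-1/5)` converges (`v_n = 3 ^ n` as in Mills's theorem and
`L_n = n ^ A`, or `v_n = n ^ 6` and `L_n` constant). For almost every `α > 1` and ALL sets `A` of `2 g + 1 ≥ 7` integers which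
are generic (`GenSet`) and have many four term arithmetic progressions (`FermatSet`), for all but finitely many `n`: for
ALL integers `d ≠ 0` with `||d| - α ^ (v_n)| ≤ L_n` the curve `d y² = ∏ a ∈ A, (x - a)` of genus `g` has exactly `2 g + 2`
rational points, the `2 g + 1` affine points with `y = 0` and the point at infinity. The same holds for all curves
`d y² = x (x² - 1) (x² - 9) ⋯ (x² - 9 ^ (g - 1))`, `g ≥ 3`, and `d y² = x (x - 1) ⋯ (x - 2 g)`, `g ≥ 4`.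
-/

set_option autoImplicit false

namespace Pool.Agent.Results.MP_10e784_ag.TwistsNearPowers

open MeasureTheory Finset
open TwistsWithTrivialPoints (GenSet FermatSet)

lemma ncard_tw (F : ℚ → ℚ) {s m : ℤ} (hm : m ≠ 0) :
    {p : ℚ × ℚ | ((s * m ^ 2 : ℤ) : ℚ) * p.2 ^ 2 = F p.1}.ncard = {p : ℚ × ℚ | (s : ℚ) * p.2 ^ 2 = F p.1}.ncard := by
  have hm' : (m : ℚ) ≠ 0 := by exact_mod_cast hm
  have he : {p : ℚ × ℚ | (s : ℚ) * p.2 ^ 2 = F p.1} =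
      (fun p : ℚ × ℚ => (p.1, (m : ℚ) * p.2)) '' {p : ℚ × ℚ | ((s * m ^ 2 : ℤ) : ℚ) * p.2 ^ 2 = F p.1} := by
    ext ⟨x, y⟩
    constructor
    · intro h
      have h : (s : ℚ) * y ^ 2 = F x := h
      refine ⟨(x, y / m), ?_, ?_⟩
      · show ((s * m ^ 2 : ℤ) : ℚ) * (y / m) ^ 2 = F x
        rw [← h]
        push_cast
        field_simp
      · show (x, (m : ℚ) * (y / m)) = (x, y)
        rw [mul_div_cancel₀ _ hm']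
    · rintro ⟨⟨x', y'⟩, h, he⟩
      have h : ((s * m ^ 2 : ℤ) : ℚ) * y' ^ 2 = F x' := h
      have he : (x', (m : ℚ) * y') = (x, y) := he
      obtain ⟨rfl, rfl⟩ := Prod.mk.inj he
      show (s : ℚ) * ((m : ℚ) * y') ^ 2 = F x'
      rw [← h]
      push_cast
      ring
  rw [he, Set.ncard_image_of_injective]
  rintro ⟨x, y⟩ ⟨x', y'⟩ h
  obtain ⟨h1, h2⟩ := Prod.mk.inj h
  exact Prod.ext h1 (mul_left_cancel₀ hm' h2)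

lemma one (F : ℚ → ℚ) (k : ℕ) {C : ℝ} (hC : ∀ X : ℕ, 3 ≤ X →
      ({d : ℤ | d.natAbs ≤ X ∧ Squarefree d ∧ {p : ℚ × ℚ | (d : ℚ) * p.2 ^ 2 = F p.1}.ncard ≠ k}.ncard : ℝ) ≤
        C * X * (Real.log X) ^ (-(1 / 5 : ℝ)))
    {v L : ℕ → ℝ} (hv : ∀ n, 1 ≤ v n) (hL : ∀ n, 1 ≤ L n) (hs : Summable fun n => L n * (v n) ^ (-(1 / 5 : ℝ))) :
    ∃ Z : Set ℝ, volume Z = 0 ∧ ∀ α : ℝ, 1 < α → α ∉ Z → ∃ n₀ : ℕ, ∀ n : ℕ, n₀ ≤ n → ∀ d : ℤ, d ≠ 0 →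
      |(|d| : ℝ) - α ^ (v n)| ≤ L n → {p : ℚ × ℚ | (d : ℚ) * p.2 ^ 2 = F p.1}.ncard = k := by
  obtain ⟨Z, hZ, hw⟩ := Pool.Agent.R482.ST.mills_twists
    (fun d : ℤ => {p : ℚ × ℚ | (d : ℚ) * p.2 ^ 2 = F p.1}.ncard ≠ k) (by norm_num : (0 : ℝ) < 1 / 5) 3 hC hv hL hs
  refine ⟨Z, hZ, fun α hα hαZ => ?_⟩
  obtain ⟨n₀, hn⟩ := hw α hα hαZ
  refine ⟨n₀, fun n hn1 d hd hdw => ?_⟩
  obtain ⟨s, m, h4, h5, rfl⟩ := Pool.Agent.R482.ST.sf_decomp d hd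
  rw [ncard_tw F (by omega)]
  push_cast at hdw
  exact not_not.1 (hn n hn1 s m h4 h5 hdw)

/-- **Theorem.** Let `v_n ≥ 1`, `L_n ≥ 1` be reals such that the sum of `L_n v_n ^ (-1/5)` converges. There is a null set `Z` such
that for all `α > 1` outside `Z`: (1) for ALL sets `A` of `2 g + 1 ≥ 7` integers with the properties `GenSet` and
`FermatSet`, for all but finitely many `n`, for ALL integers `d ≠ 0` with `||d| - α ^ (v_n)| ≤ L_n` the curve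
`d y² = ∏ a ∈ A, (x - a)` has exactly `2 g + 1` affine rational points; (2) for all `g ≥ 3` the same for
`d y² = x ∏ (x² - 9 ^ j)`, `j < g`; (3) for all `g ≥ 4` the same for `d y² = ∏ (x - j)`, `j ≤ 2 g`. -/
theorem result (v L : ℕ → ℝ) (hv : ∀ n, 1 ≤ v n) (hL : ∀ n, 1 ≤ L n)
    (hs : Summable fun n => L n * (v n) ^ (-(1 / 5 : ℝ))) :
    ∃ Z : Set ℝ, volume Z = 0 ∧ ∀ α : ℝ, 1 < α → α ∉ Z →
      (∀ A : Finset ℤ, Odd A.card → 7 ≤ A.card → GenSet A → FermatSet A →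
        ∃ n₀ : ℕ, ∀ n : ℕ, n₀ ≤ n → ∀ d : ℤ, d ≠ 0 → |(|d| : ℝ) - α ^ (v n)| ≤ L n →
          {p : ℚ × ℚ | (d : ℚ) * p.2 ^ 2 = ∏ a ∈ A, (p.1 - a)}.ncard = A.card) ∧
      (∀ g : ℕ, 3 ≤ g → ∃ n₀ : ℕ, ∀ n : ℕ, n₀ ≤ n → ∀ d : ℤ, d ≠ 0 → |(|d| : ℝ) - α ^ (v n)| ≤ L n →
        {p : ℚ × ℚ | (d : ℚ) * p.2 ^ 2 = p.1 * ∏ j ∈ range g, (p.1 ^ 2 - 9 ^ j)}.ncard = 2 * g + 1) ∧
      (∀ g : ℕ, 4 ≤ g → ∃ n₀ : ℕ, ∀ n : ℕ, n₀ ≤ n → ∀ d : ℤ, d ≠ 0 → |(|d| : ℝ) - α ^ (v n)| ≤ L n →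
        {p : ℚ × ℚ | (d : ℚ) * p.2 ^ 2 = ∏ j ∈ range (2 * g + 1), (p.1 - j)}.ncard = 2 * g + 1) := by
  obtain ⟨h1, h2, h3⟩ := TwistsWithTrivialPoints.result
  have a1 : ∀ A : Finset ℤ, ∃ Z : Set ℝ, volume Z = 0 ∧ (Odd A.card → 7 ≤ A.card → GenSet A → FermatSet A →
      ∀ α : ℝ, 1 < α → α ∉ Z → ∃ n₀ : ℕ, ∀ n : ℕ, n₀ ≤ n → ∀ d : ℤ, d ≠ 0 → |(|d| : ℝ) - α ^ (v n)| ≤ L n →
        {p : ℚ × ℚ | (d : ℚ) * p.2 ^ 2 = ∏ a ∈ A, (p.1 - a)}.ncard = A.card) := by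
    intro A
    by_cases hA : Odd A.card ∧ 7 ≤ A.card ∧ GenSet A ∧ FermatSet A
    · obtain ⟨C, hC⟩ := h1 A hA.1 hA.2.1 hA.2.2.1 hA.2.2.2
      obtain ⟨Z, hZ, hw⟩ := one (fun x => ∏ a ∈ A, (x - a)) A.card hC hv hL hs
      exact ⟨Z, hZ, fun _ _ _ _ => hw⟩
    · exact ⟨∅, measure_empty, fun g1 g2 g3 g4 => absurd ⟨g1, g2, g3, g4⟩ hA⟩
  have a2 : ∀ g : ℕ, ∃ Z : Set ℝ, volume Z = 0 ∧ (3 ≤ g →
      ∀ α : ℝ, 1 < α → α ∉ Z → ∃ n₀ : ℕ, ∀ n : ℕ, n₀ ≤ n → ∀ d : ℤ, d ≠ 0 → |(|d| : ℝ) - α ^ (v n)| ≤ L n →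
        {p : ℚ × ℚ | (d : ℚ) * p.2 ^ 2 = p.1 * ∏ j ∈ range g, (p.1 ^ 2 - 9 ^ j)}.ncard = 2 * g + 1) := by
    intro g
    by_cases hg : 3 ≤ g
    · obtain ⟨C, hC⟩ := h2 g hg
      obtain ⟨Z, hZ, hw⟩ := one (fun x => x * ∏ j ∈ range g, (x ^ 2 - 9 ^ j)) (2 * g + 1) hC hv hL hs
      exact ⟨Z, hZ, fun _ => hw⟩
    · exact ⟨∅, measure_empty, fun h => absurd h hg⟩
  have a3 : ∀ g : ℕ, ∃ Z : Set ℝ, volume Z = 0 ∧ (4 ≤ g →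
      ∀ α : ℝ, 1 < α → α ∉ Z → ∃ n₀ : ℕ, ∀ n : ℕ, n₀ ≤ n → ∀ d : ℤ, d ≠ 0 → |(|d| : ℝ) - α ^ (v n)| ≤ L n →
        {p : ℚ × ℚ | (d : ℚ) * p.2 ^ 2 = ∏ j ∈ range (2 * g + 1), (p.1 - j)}.ncard = 2 * g + 1) := by
    intro g
    by_cases hg : 4 ≤ g
    · obtain ⟨C, hC⟩ := h3 g hg
      obtain ⟨Z, hZ, hw⟩ := one (fun x => ∏ j ∈ range (2 * g + 1), (x - j)) (2 * g + 1) hC hv hL hs
      exact ⟨Z, hZ, fun _ => hw⟩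
    · exact ⟨∅, measure_empty, fun h => absurd h hg⟩
  choose Z1 b1 c1 using a1
  choose Z2 b2 c2 using a2
  choose Z3 b3 c3 using a3
  refine ⟨(⋃ A, Z1 A) ∪ (⋃ g, Z2 g) ∪ (⋃ g, Z3 g), ?_, fun α hα hαZ => ?_⟩
  · exact measure_union_null (measure_union_null (measure_iUnion_null b1) (measure_iUnion_null b2))
      (measure_iUnion_null b3)
  · simp only [Set.mem_union, Set.mem_iUnion, not_or, not_exists] at hαZ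
    obtain ⟨⟨q1, q2⟩, q3⟩ := hαZ
    exact ⟨fun A g1 g2 g3 g4 => c1 A g1 g2 g3 g4 α hα (q1 A), fun g hg => c2 g hg α hα (q2 g),
      fun g hg => c3 g hg α hα (q3 g)⟩

end Pool.Agent.Results.MP_10e784_ag.TwistsNearPowers
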